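import Pool.Agent.Helper24.ETC.Ndi

set_option autoImplicit false

/-! The symbols at a place with `-1 ∉ T(R)` and four classes are indecomposable, if the place is not
exceptional (`p = 2`). -/

namespace Pool.Agent.Helper25.ETC

open scoped TensorProduct
open Pool.Agent.ETC
open Pool.Agent.Helper24.ETC
open Pool.Agent.Helper58.ET (St Ns)
open Pool.Agent.Helper58.EU (Ordg)
open Pool.Agent.Helper39.ET2 (Nd Split Indec)

section

variable {F : Type} [Field F] {ζ : F} {R : ValuationSubring F}

/-- the value is a square -/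
def Ev (R : ValuationSubring F) (x : Fˣ) : Prop := ∃ f : Fˣ, R.valuation (x : F) = R.valuation (f : F) ^ 2

lemma v0 (x : Fˣ) : R.valuation (x : F) ≠ 0 := (Valuation.ne_zero_iff _).2 x.ne_zero

lemma ev_mul {x y : Fˣ} (hx : Ev R x) (hy : Ev R y) : Ev R (x * y) := by
  obtain ⟨f, hf⟩ := hx
  obtain ⟨g, hg⟩ := hy
  exact ⟨f * g, by rw [Units.val_mul, Units.val_mul, map_mul, map_mul, hf, hg, mul_pow]⟩

lemma ev_inv {x : Fˣ} (hx : Ev R x) : Ev R x⁻¹ := by
  obtain ⟨f, hf⟩ := hx
  exact ⟨f⁻¹, by rw [Units.val_inv_eq_inv_val, Units.val_inv_eq_inv_val, map_inv₀, map_inv₀, hf, inv_pow]⟩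

lemma ev_neg {x : Fˣ} (hx : Ev R x) : Ev R (-x) := by
  obtain ⟨f, hf⟩ := hx
  exact ⟨f, by rw [Units.val_neg, Valuation.map_neg, hf]⟩

lemma ev_of_mul {x y : Fˣ} (hxy : Ev R (x * y)) (hx : Ev R x) : Ev R y := by
  have := ev_mul (ev_inv hx) hxy
  rwa [inv_mul_cancel_left] at this

lemma sq_mem_TR (a : Fˣ) : a ^ 2 ∈ TR 2 ζ R := Subgroup.mem_sup_left ⟨a, rfl⟩

lemma neg_eq (a : Fˣ) : -a = -1 * a := by
  ext
  simp

/-- **Indecomposable places with four classes.** -/
theorem indec_four (hl : R.valuation (1 - ζ) = 1) (h : V1 2 ζ R) (hx : NX 2 ζ R)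
    (hneg : (-1 : Fˣ) ∉ TR 2 ζ R) {t : Fˣ}
    (ht : ∀ y : Fˣ, y ∈ TR 2 ζ R ∨ -y ∈ TR 2 ζ R ∨ t * y ∈ TR 2 ζ R ∨ -(t * y) ∈ TR 2 ζ R) :
    Indec (cl (TR 2 ζ R)) (Ns (cl (TR 2 ζ R))) := by
  have : Fact (Nat.Prime 2) := ⟨Nat.prime_two⟩
  have evT : ∀ {x : Fˣ}, x ∈ TR 2 ζ R → Ev R x := fun hx => val_TR hl hx
  obtain ⟨c, hc⟩ := h.nu
  have hcE : ¬ Ev R c := by
    rintro ⟨f, hf⟩
    apply hc f⁻¹
    rw [Units.val_mul, Units.val_pow_eq_pow_val, Units.val_inv_eq_inv_val, map_mul, map_pow, map_inv₀,
      hf, inv_pow]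
    exact mul_inv_cancel₀ (pow_ne_zero _ (v0 f))
  have hnE : ∀ {x : Fˣ}, ¬ Ev R x → ∀ f : Fˣ, R.valuation ((x * f ^ 2 : Fˣ) : F) ≠ 1 := by
    intro x hx f hf
    apply hx
    refine ⟨f⁻¹, ?_⟩
    rw [Units.val_mul, Units.val_pow_eq_pow_val, map_mul, map_pow] at hf
    rw [Units.val_inv_eq_inv_val, map_inv₀, inv_pow]
    exact eq_inv_of_mul_eq_one_left hf
  have htE : ¬ Ev R t := by
    intro hE
    rcases ht c with h1 | h1 | h1 | h1
    · exact hcE (evT h1)
    · have := ev_neg (evT h1)
      rw [neg_neg] at this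
      exact hcE this
    · exact hcE (ev_of_mul (evT h1) hE)
    · have := ev_neg (evT h1)
      rw [neg_neg] at this
      exact hcE (ev_of_mul this hE)
  have K1 : ∀ {y : Fˣ}, Ev R y → y ∈ TR 2 ζ R ∨ -y ∈ TR 2 ζ R := by
    intro y hy
    rcases ht y with h1 | h1 | h1 | h1
    · exact Or.inl h1
    · exact Or.inr h1
    · exfalso
      have := evT h1
      rw [mul_comm] at this
      exact htE (ev_of_mul this hy)
    · exfalso
      have := ev_neg (evT h1)
      rw [neg_neg, mul_comm] at this
      exact htE (ev_of_mul this hy)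
  -- orthogonality to an element with odd value
  have ram : ∀ {x y : Fˣ}, ¬ Ev R x → Sy (TR 2 ζ R) x y → y ∈ TR 2 ζ R ∨ y / -x ∈ TR 2 ζ R := by
    intro x y hx hxy
    obtain ⟨n, hn⟩ := ns_ram hl (hnE hx) hxy
    rcases Nat.even_or_odd' n with ⟨m, hm | hm⟩
    · left
      rw [hm, pow_mul', ] at hn
      have h1 := mul_mem hn (sq_mem_TR (ζ := ζ) (R := R) ((-x) ^ m))
      rwa [div_mul_cancel] at h1
    · right
      rw [hm, pow_succ, pow_mul', ← div_div] at hn
      have h1 := mul_mem hn (sq_mem_TR (ζ := ζ) (R := R) ((-x) ^ m))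
      rwa [div_right_comm, div_mul_cancel] at h1
  intro H K hS
  by_contra hcon
  push Not at hcon
  obtain ⟨hH, hK⟩ := hcon
  obtain ⟨a, haH, ha1⟩ := H.bot_or_exists_ne_one.resolve_left hH
  obtain ⟨b, hbK, hb1⟩ := K.bot_or_exists_ne_one.resolve_left hK
  obtain ⟨x, rfl⟩ := cl_surj _ a
  obtain ⟨y, rfl⟩ := cl_surj _ b
  rw [Ne, cl_eq_one] at ha1 hb1
  have hxy : Sy (TR 2 ζ R) x y := hS.orth _ haH _ hbK
  have hyx : Sy (TR 2 ζ R) y x := sy_symm hxy
  -- general step: elements of one factor have odd value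
  have step : ∀ {x y : Fˣ}, x ∉ TR 2 ζ R → y ∉ TR 2 ζ R → cl (TR 2 ζ R) x ≠ cl (TR 2 ζ R) y →
      Sy (TR 2 ζ R) y x → ¬ Ev R x := by
    intro x y hx hy hne hyx hE
    have h1 : -x ∈ TR 2 ζ R := (K1 hE).resolve_left hx
    have hyE : ¬ Ev R y := by
      intro hyE
      have h2 : -y ∈ TR 2 ζ R := (K1 hyE).resolve_left hy
      apply hne
      have h3 := div_mem h1 h2
      rw [neg_div_neg_eq, ← cl_eq_one, map_div, div_eq_one] at h3
      exact h3
    rcases ram hyE hyx with h2 | h2
    · exact hx h2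
    · apply hyE
      have h3 := ev_mul (ev_inv (evT h2)) hE
      rw [inv_div, div_mul_cancel] at h3
      have h4 := ev_neg h3
      rwa [neg_neg] at h4
  have hne : cl (TR 2 ζ R) x ≠ cl (TR 2 ζ R) y := by
    intro e
    have h1 : cl (TR 2 ζ R) x ∈ H ⊓ K := ⟨haH, by rw [e]; exact hbK⟩
    rw [hS.inf, Subgroup.mem_bot, cl_eq_one] at h1
    exact ha1 h1
  have hxE : ¬ Ev R x := step ha1 hb1 hne hyx
  have hyE : ¬ Ev R y := step hb1 ha1 hne.symm hxy
  have hyx' : y / -x ∈ TR 2 ζ R := (ram hxE hxy).resolve_left hb1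
  have hcly : cl (TR 2 ζ R) y = cl (TR 2 ζ R) (-x) := by
    rwa [← cl_eq_one, map_div, div_eq_one] at hyx'
  -- no sum of three elements of `T` is zero
  have hno : ∀ a ∈ TR 2 ζ R, ∀ b ∈ TR 2 ζ R, (a : F) + b + 1 ≠ 0 := by
    intro a ha b hb hab
    have huv : ((-a : Fˣ) : F) + ((-b : Fˣ) : F) = 1 := by
      rw [Units.val_neg, Units.val_neg]
      linear_combination (-1) * hab
    have hu : ∀ z ∈ TR 2 ζ R, cl (TR 2 ζ R) (-z) = cl (TR 2 ζ R) x * cl (TR 2 ζ R) y := by
      intro z hz
      rw [hcly, ← map_mul]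
      rw [← div_eq_one, ← map_div, cl_eq_one]
      have e : -z / (x * -x) = z / x ^ 2 := by
        rw [mul_neg, ← sq, neg_div_neg_eq]
      rw [e]
      exact div_mem hz (sq_mem_TR x)
    have h1 := (hS.pr _ _ huv _ haH _ hbK _ haH _ hbK (hu a ha) (hu b hb)).1
    have h2 : Sy (TR 2 ζ R) x x := h1
    rcases ram hxE h2 with h3 | h3
    · exact ha1 h3
    · apply hneg
      have e : x / -x = -1 := by
        rw [div_eq_iff_eq_mul]
        ext
        simp
      rwa [e] at h3
  -- `T` is closed under addition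
  have hadd : ∀ b ∈ TR 2 ζ R, ∃ z : Fˣ, (z : F) = 1 + b ∧ z ∈ TR 2 ζ R := by
    intro b hb
    have h0 : (1 : F) + b ≠ 0 := by
      intro e
      apply hneg
      have : (-1 : Fˣ) = b := by
        ext
        rw [Units.val_neg, Units.val_one]
        linear_combination (-1) * e
      rwa [this]
    refine ⟨Units.mk0 _ h0, Units.val_mk0 _, ?_⟩
    obtain ⟨z, hz⟩ : ∃ z : Fˣ, z = Units.mk0 _ h0 := ⟨_, rfl⟩
    have hzv : (z : F) = 1 + b := by rw [hz, Units.val_mk0]
    rw [← hz]
    have hzE : Ev R z := by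
      rcases lt_trichotomy (R.valuation (b : F)) 1 with h1 | h1 | h1
      · refine ⟨1, ?_⟩
        rw [hzv, Valuation.map_one_add_of_lt _ h1]
        simp
      · by_cases h2 : R.valuation (z : F) < 1
        · exfalso
          apply hneg
          have h3 : -b ∈ TR 2 ζ R := by
            apply one_unit_mem hl
            rw [Units.val_neg]
            have e : -(b : F) - 1 = -z := by rw [hzv]; ring
            rw [e, Valuation.map_neg]
            exact h2
          have h4 := div_mem h3 hb
          have e : -b / b = -1 := by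
            rw [div_eq_iff_eq_mul]
            ext
            simp
          rwa [e] at h4
        · refine ⟨1, ?_⟩
          have h3 : R.valuation (z : F) ≤ 1 := by
            rw [hzv]
            refine (R.valuation.map_add _ _).trans ?_
            rw [map_one, h1, max_self]
          rw [le_antisymm h3 (not_lt.1 h2)]
          simp
      · have h2 : R.valuation (z : F) = R.valuation (b : F) := by
          rw [hzv, add_comm]
          apply Valuation.map_add_eq_of_lt_left
          rwa [map_one]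
        obtain ⟨f, hf⟩ := evT hb
        exact ⟨f, by rw [h2, hf]⟩
    refine (K1 hzE).resolve_right fun h1 => ?_
    refine hno (-z)⁻¹ (inv_mem h1) (b / -z) (div_mem hb h1) ?_
    have hz0 : (z : F) ≠ 0 := z.ne_zero
    rw [Units.val_div_eq_div_val, Units.val_inv_eq_inv_val, Units.val_neg]
    field_simp
    rw [hzv]
    ring
  -- the ordering
  let P : Subgroup Fˣ :=
    { carrier := {x | x ∈ TR 2 ζ R ∨ t * x ∈ TR 2 ζ R}
      one_mem' := Or.inl (one_mem _)
      mul_mem' := by
        rintro a b (ha | ha) (hb | hb)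
        · exact Or.inl (mul_mem ha hb)
        · right
          rw [mul_left_comm]
          exact mul_mem ha hb
        · right
          rw [← mul_assoc]
          exact mul_mem ha hb
        · left
          have h1 := div_mem (mul_mem ha hb) (sq_mem_TR (ζ := ζ) (R := R) t)
          have e : t * a * (t * b) / t ^ 2 = a * b := by
            rw [div_eq_iff_eq_mul, sq]
            ac_rfl
          rwa [e] at h1
      inv_mem' := by
        rintro a (ha | ha)
        · exact Or.inl (inv_mem ha)
        · right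
          have h1 := div_mem (sq_mem_TR (ζ := ζ) (R := R) t) ha
          have e : t ^ 2 / (t * a) = t * a⁻¹ := by
            rw [div_eq_iff_eq_mul, sq]
            rw [mul_mul_mul_comm, inv_mul_cancel, mul_one]
          rwa [e] at h1 }
  have memP : ∀ x : Fˣ, x ∈ P ↔ x ∈ TR 2 ζ R ∨ t * x ∈ TR 2 ζ R := fun _ => Iff.rfl
  have hOrd : Ordg P := by
    refine ⟨?_, ?_, ?_⟩
    · intro h1
      rcases (memP _).1 h1 with h2 | h2
      · exact hneg h2
      · have h3 := ev_neg (evT h2)
        have e : -(t * -1) = t := by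
          ext
          simp
        rw [e] at h3
        exact htE h3
    · intro u
      rcases ht u with h1 | h1 | h1 | h1
      · exact Or.inl (Or.inl h1)
      · exact Or.inr (Or.inl h1)
      · exact Or.inl (Or.inr h1)
      · refine Or.inr (Or.inr ?_)
        rwa [mul_neg]
    · intro u hu
      rcases (memP _).1 hu with h1 | h1
      · obtain ⟨z, hz, hz1⟩ := hadd u h1
        exact ⟨z, hz, Or.inl hz1⟩
      · have huE : ¬ Ev R u := by
          intro hE
          have h2 := evT h1
          rw [mul_comm] at h2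
          exact htE (ev_of_mul h2 hE)
        have hu1 : R.valuation (u : F) ≠ 1 := by
          intro e
          apply huE
          exact ⟨1, by rw [e]; simp⟩
        have h0 : (1 : F) + u ≠ 0 := by
          intro e
          apply hu1
          have : (u : F) = -1 := by linear_combination e
          rw [this, Valuation.map_neg, map_one]
        refine ⟨Units.mk0 _ h0, Units.val_mk0 _, ?_⟩
        rcases lt_or_gt_of_ne hu1 with h2 | h2
        · left
          apply one_unit_mem hl
          rw [Units.val_mk0, add_sub_cancel_left]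
          exact h2
        · right
          have h3 : (Units.mk0 _ h0) / u ∈ TR 2 ζ R := by
            apply one_unit_mem hl
            have hu0 : (u : F) ≠ 0 := u.ne_zero
            have e : (((Units.mk0 _ h0) / u : Fˣ) : F) - 1 = (u : F)⁻¹ := by
              rw [Units.val_div_eq_div_val, Units.val_mk0]
              field_simp
              ring
            rw [e, map_inv₀]
            exact inv_lt_one_of_one_lt₀ h2
          have h4 := mul_mem h1 h3
          have e : t * u * ((Units.mk0 _ h0) / u) = t * Units.mk0 _ h0 := by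
            rw [mul_assoc, mul_div_cancel]
          rwa [e] at h4
  obtain ⟨z, hz, hz1⟩ := hx P hOrd (fun x hx => Or.inl hx) t
  rcases (memP _).1 hz with h1 | h1
  · apply hz1 0
    rwa [pow_zero, div_one]
  · apply hz1 1
    have h2 := div_mem h1 (sq_mem_TR (ζ := ζ) (R := R) t)
    have e : t * z / t ^ 2 = z / t ^ 1 := by
      rw [pow_one, sq, ← div_div, mul_div_cancel_left]
    rwa [e] at h2

end

end Pool.Agent.Helper25.ETC
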